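import Pool.Agent.Lib.MP_a4e5f3_nt.Close

/-! The analytic Nagao conjecture holds for all non-split elliptic surfaces
`y² = x³ + A(T)x + B(T)` if and only if it holds for the ones which are invariant under the Klein
four-group generated by `T ↦ -T` and `T ↦ 1/T` (pull-backs along `T² + T⁻²`); the same is true inside every class of surfaces
which is closed under pull-back by rational functions of degree at most `8`. -/

namespace Pool.Agent.Results.MP_a4e5f3_nt.KleinReduction

open Polynomial MPa4e5f3

theorem result (S : ℤ[X] → ℤ[X] → Prop)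
    (hS : ∀ A B A' B' : ℤ[X], S A B → IsPullback A B A' B' → S A' B') :
    (∀ A B : ℤ[X], S A B → NonSplit A B → AnalyticNagao A B) ↔
      (∀ A B : ℤ[X], S A B → NonSplit A B → KleinInvariant A B → AnalyticNagao A B) :=
  ⟨fun h A B h1 h2 _ => h A B h1 h2, fun h A B h1 h2 => main h2
    (fun A' B' h3 h4 h5 => h A' B' (hS A B A' B' h1 h3) h4 h5)⟩

end Pool.Agent.Results.MP_a4e5f3_nt.KleinReduction
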